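import Pool.Agent.L5helper59.CV3
import Pool.Agent.H370R2.DirGood
import Pool.Agent.H370R2.Defs2

/-!
# The line `Re s = -1/2` (for helper12, CV)
-/

set_option autoImplicit false

open Filter Topology Set MeasureTheory Complex H370

namespace Pool.Agent.L5helper83.CVL

open Pool.Agent.L5helper12.CV

/-! ### The logarithmic derivative -/

lemma zeta_left_ne (y : ℝ) : riemannZeta (⟨-1 / 2, y⟩ : ℂ) ≠ 0 := by
  have h1 : (1 : ℂ) - (⟨3 / 2, -y⟩ : ℂ) = ⟨-1 / 2, y⟩ := by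
    apply Complex.ext <;> simp; norm_num
  have hs : ∀ n : ℕ, (⟨3 / 2, -y⟩ : ℂ) ≠ -n := by
    intro n h
    have h2 := congrArg Complex.re h
    simp at h2
    have : (0 : ℝ) ≤ n := Nat.cast_nonneg n
    linarith
  have hs' : (⟨3 / 2, -y⟩ : ℂ) ≠ 1 := by
    intro h
    have h2 := congrArg Complex.re h
    simp at h2
    norm_num at h2
  rw [← h1, riemannZeta_one_sub hs hs']
  refine mul_ne_zero (mul_ne_zero (mul_ne_zero (mul_ne_zero two_ne_zero ?_) ?_) ?_) ?_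
  · rw [Complex.cpow_ne_zero_iff]
    left
    have := Real.pi_ne_zero
    exact mul_ne_zero two_ne_zero (Complex.ofReal_ne_zero.2 this)
  · apply Complex.Gamma_ne_zero
    intro n h
    exact hs n h
  · intro h
    rw [Complex.cos_eq_zero_iff] at h
    obtain ⟨k, hk⟩ := h
    have hpi : (Real.pi : ℂ) ≠ 0 := Complex.ofReal_ne_zero.2 Real.pi_ne_zero
    have h3 : (⟨3 / 2, -y⟩ : ℂ) = 2 * k + 1 := by
      have h4 : (Real.pi : ℂ) * (⟨3 / 2, -y⟩ : ℂ) = Real.pi * (2 * k + 1) := by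
        have h5 : (2 : ℂ) * (Real.pi * (⟨3 / 2, -y⟩ : ℂ) / 2) = 2 * ((2 * k + 1) * Real.pi / 2) := by rw [hk]
        calc (Real.pi : ℂ) * (⟨3 / 2, -y⟩ : ℂ) = 2 * (Real.pi * (⟨3 / 2, -y⟩ : ℂ) / 2) := by ring
          _ = 2 * ((2 * k + 1) * Real.pi / 2) := h5
          _ = _ := by ring
      exact mul_left_cancel₀ hpi h4
    have h4 := congrArg Complex.re h3
    have h5 : ((2 * (k : ℂ) + 1 : ℂ)).re = 2 * k + 1 := by simp
    rw [h5] at h4
    have h6 : (3 : ℝ) = 2 * (2 * k + 1) := by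
      have h7 : (3 / 2 : ℝ) = 2 * k + 1 := h4
      linarith
    have h8 : (3 : ℤ) = 2 * (2 * k + 1) := by exact_mod_cast h6
    omega
  · apply riemannZeta_ne_zero_of_one_lt_re
    norm_num

lemma ld_conj (s : ℂ) : ld ((starRingEnd ℂ) s) = (starRingEnd ℂ) (ld s) := by
  have h1 : (starRingEnd ℂ) ∘ riemannZeta ∘ (starRingEnd ℂ) = riemannZeta := by
    funext z
    simp only [Function.comp]
    rw [riemannZeta_conj, Complex.conj_conj]
  have h2 : deriv riemannZeta ((starRingEnd ℂ) s) = (starRingEnd ℂ) (deriv riemannZeta s) := by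
    have h3 := congrFun (deriv_conj_conj (𝕜 := ℂ) (f := riemannZeta)) ((starRingEnd ℂ) s)
    rw [h1] at h3
    simpa using h3
  rw [ld, ld, h2, riemannZeta_conj, map_div₀]

/-- bound on the line `3/2` -/
lemma ld_right : ∃ D : ℝ, 0 ≤ D ∧ ∀ y : ℝ, ‖ld (⟨3 / 2, y⟩ : ℂ)‖ ≤ D := by
  have hs : Summable fun n => ‖LSeries.term (fun n => (ArithmeticFunction.vonMangoldt n : ℂ)) (⟨3 / 2, 0⟩ : ℂ) n‖ := by
    have := ArithmeticFunction.LSeriesSummable_vonMangoldt (s := (⟨3 / 2, 0⟩ : ℂ)) (by norm_num)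
    exact this.norm
  refine ⟨∑' n, ‖LSeries.term (fun n => (ArithmeticFunction.vonMangoldt n : ℂ)) (⟨3 / 2, 0⟩ : ℂ) n‖,
    tsum_nonneg fun n => norm_nonneg _, ?_⟩
  intro y
  have h1 := ArithmeticFunction.LSeries_vonMangoldt_eq_deriv_riemannZeta_div (s := (⟨3 / 2, y⟩ : ℂ)) (by norm_num)
  have h2 : ld (⟨3 / 2, y⟩ : ℂ) = - LSeries (fun n => (ArithmeticFunction.vonMangoldt n : ℂ)) (⟨3 / 2, y⟩ : ℂ) := by
    rw [h1, ld, neg_div, neg_neg]
  rw [h2, norm_neg, LSeries]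
  have h3 : ∀ n, ‖LSeries.term (fun n => (ArithmeticFunction.vonMangoldt n : ℂ)) (⟨3 / 2, y⟩ : ℂ) n‖ =
      ‖LSeries.term (fun n => (ArithmeticFunction.vonMangoldt n : ℂ)) (⟨3 / 2, 0⟩ : ℂ) n‖ := by
    intro n
    rw [LSeries.norm_term_eq, LSeries.norm_term_eq]
  have h4 : Summable fun n => ‖LSeries.term (fun n => (ArithmeticFunction.vonMangoldt n : ℂ)) (⟨3 / 2, y⟩ : ℂ) n‖ := by
    simp_rw [h3]
    exact hs
  refine (norm_tsum_le_tsum_norm h4).trans ?_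
  simp_rw [h3]
  exact le_refl _

lemma ld_left : ∃ C : ℝ, 0 ≤ C ∧ ∀ y : ℝ, ‖ld (⟨-1 / 2, y⟩ : ℂ)‖ ≤ C * Real.log (3 + |y|) := by
  obtain ⟨D, hD, hD1⟩ := ld_right
  obtain ⟨C, hC⟩ := good_zeta.left
  have hC0 : 0 ≤ C := by
    have h1 := hC (⟨-1 / 2, 1⟩ : ℂ) (by norm_num) (by norm_num) (by norm_num) (zeta_left_ne 1)
    exact (norm_nonneg _).trans h1
  -- compact part
  have hcont : ContinuousOn (fun y : ℝ => ld (⟨-1 / 2, y⟩ : ℂ)) (Icc (-1) 1) := by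
    have hl : Continuous fun y : ℝ => (⟨-1 / 2, y⟩ : ℂ) := by
      have : (fun y : ℝ => (⟨-1 / 2, y⟩ : ℂ)) = fun y : ℝ => ((-1 / 2 : ℝ) : ℂ) + (y : ℂ) * I := by
        funext y
        apply Complex.ext <;> simp
      rw [this]
      fun_prop
    intro y _
    have hne1 : (⟨-1 / 2, y⟩ : ℂ) ≠ 1 := by
      intro h
      have h2 := congrArg Complex.re h
      simp at h2
      norm_num at h2
    have han : AnalyticAt ℂ riemannZeta (⟨-1 / 2, y⟩ : ℂ) := by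
      apply DifferentiableOn.analyticAt (s := {1}ᶜ) _ (IsOpen.mem_nhds isOpen_compl_singleton hne1)
      intro z hz
      exact (differentiableAt_riemannZeta hz).differentiableWithinAt
    have h1 : ContinuousAt ld (⟨-1 / 2, y⟩ : ℂ) := by
      unfold ld
      exact han.deriv.continuousAt.div han.continuousAt (zeta_left_ne y)
    exact (ContinuousAt.comp (f := fun y : ℝ => (⟨-1 / 2, y⟩ : ℂ)) (g := ld) h1 hl.continuousAt).continuousWithinAt
  obtain ⟨M, hM⟩ := isCompact_Icc.exists_bound_of_continuousOn hcont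
  have hM0 : 0 ≤ M := (norm_nonneg _).trans (hM 0 (by constructor <;> norm_num))
  have hpos : ∀ y : ℝ, 1 ≤ y → ‖ld (⟨-1 / 2, y⟩ : ℂ)‖ ≤ C + D + Real.log y := by
    intro y hy
    have h1 := hC (⟨-1 / 2, y⟩ : ℂ) (by norm_num) (by norm_num) hy (zeta_left_ne y)
    have h2 : (1 : ℂ) - (starRingEnd ℂ) (⟨-1 / 2, y⟩ : ℂ) = ⟨3 / 2, y⟩ := by
      apply Complex.ext <;> simp; norm_num
    rw [h2] at h1
    have h3 := hD1 y
    have h4 : deriv riemannZeta (⟨-1 / 2, y⟩ : ℂ) / riemannZeta (⟨-1 / 2, y⟩ : ℂ) = ld (⟨-1 / 2, y⟩ : ℂ) := rfl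
    have h5 : deriv riemannZeta (⟨3 / 2, y⟩ : ℂ) / riemannZeta (⟨3 / 2, y⟩ : ℂ) = ld (⟨3 / 2, y⟩ : ℂ) := rfl
    rw [h4, h5] at h1
    simp only at h1
    set A := ld (⟨-1 / 2, y⟩ : ℂ) with hA
    set B := ld (⟨3 / 2, y⟩ : ℂ) with hB
    have h6 : A = (A + (Real.log y : ℂ) + (starRingEnd ℂ) B) - (Real.log y : ℂ) - (starRingEnd ℂ) B := by ring
    rw [h6]
    have h7 : ‖(starRingEnd ℂ) B‖ = ‖B‖ := Complex.norm_conj B
    have h8 : ‖(Real.log y : ℂ)‖ = Real.log y := by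
      rw [Complex.norm_real, Real.norm_of_nonneg (Real.log_nonneg hy)]
    calc _ ≤ ‖(A + (Real.log y : ℂ) + (starRingEnd ℂ) B) - (Real.log y : ℂ)‖ + ‖(starRingEnd ℂ) B‖ := norm_sub_le _ _
      _ ≤ ‖A + (Real.log y : ℂ) + (starRingEnd ℂ) B‖ + ‖(Real.log y : ℂ)‖ + ‖(starRingEnd ℂ) B‖ := by
          gcongr
          exact norm_sub_le _ _
      _ ≤ C + Real.log y + D := by
          rw [h7, h8]
          gcongr
      _ = _ := by ring
  have hlog3 : ∀ y : ℝ, 1 ≤ Real.log (3 + |y|) := by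
    intro y
    have h1 : Real.log (Real.exp 1) ≤ Real.log (3 + |y|) := by
      apply Real.log_le_log (Real.exp_pos 1)
      have := Real.exp_one_lt_d9
      have := abs_nonneg y
      linarith
    rwa [Real.log_exp] at h1
  refine ⟨C + D + 1 + M, by positivity, ?_⟩
  intro y
  have hl := hlog3 y
  rcases le_or_gt 1 |y| with hy | hy
  · have h1 : ‖ld (⟨-1 / 2, y⟩ : ℂ)‖ = ‖ld (⟨-1 / 2, |y|⟩ : ℂ)‖ := by
      rcases abs_choice y with h | h
      · rw [h]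
      · have h2 : (⟨-1 / 2, |y|⟩ : ℂ) = (starRingEnd ℂ) (⟨-1 / 2, y⟩ : ℂ) := by
          apply Complex.ext
          · simp
          · simp [h]
        rw [h2, ld_conj, Complex.norm_conj]
    rw [h1]
    have h2 := hpos |y| hy
    have h3 : Real.log |y| ≤ Real.log (3 + |y|) := by
      apply Real.log_le_log (by linarith)
      linarith
    nlinarith
  · have h1 := hM y ⟨by linarith [neg_abs_le y], by linarith [le_abs_self y]⟩
    nlinarith

/-! ### The integral -/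

lemma norm_hh_left (u t y : ℝ) : ‖hh u t (⟨-1 / 2, y⟩ : ℂ)‖ = Real.exp (-u) * Real.exp ((1 - (y - t) ^ 2) / 2) := by
  rw [hh, norm_mul, Complex.norm_exp, Complex.norm_exp]
  congr 2
  · simp
    ring
  · have h1 : ((⟨-1 / 2, y⟩ : ℂ) - 1 / 2 - I * t) = ⟨-1, y - t⟩ := by
      apply Complex.ext <;> simp; norm_num
    rw [h1]
    simp [pow_two]

lemma log_shift (y t : ℝ) : Real.log (3 + |y|) ≤ (1 + |y - t|) * Real.log (3 + |t|) := by
  have ht : 1 ≤ Real.log (3 + |t|) := by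
    have h1 : Real.log (Real.exp 1) ≤ Real.log (3 + |t|) := by
      apply Real.log_le_log (Real.exp_pos 1)
      have := Real.exp_one_lt_d9
      have := abs_nonneg t
      linarith
    rwa [Real.log_exp] at h1
  have ha : 0 ≤ |y - t| := abs_nonneg _
  have hb : 0 ≤ |t| := abs_nonneg _
  have h1 : 3 + |y| ≤ (3 + |t|) * (1 + |y - t|) := by
    have h2 : |y| ≤ |t| + |y - t| := by
      have := abs_add_le t (y - t)
      rwa [add_sub_cancel] at this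
    nlinarith
  have h2 : Real.log (3 + |y|) ≤ Real.log (3 + |t|) + Real.log (1 + |y - t|) := by
    rw [← Real.log_mul (by positivity) (by positivity)]
    exact Real.log_le_log (by positivity) h1
  have h3 : Real.log (1 + |y - t|) ≤ |y - t| := by
    have := Real.log_le_sub_one_of_pos (show (0 : ℝ) < 1 + |y - t| by positivity)
    linarith
  nlinarith

lemma gauss_poly (x : ℝ) : (1 + |x|) ^ 2 * Real.exp ((1 - x ^ 2) / 2) ≤
    8 * Real.exp (1 / 2) * Real.exp (-(1 / 4) * x ^ 2) := by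
  have h1 : (1 + |x|) ^ 2 ≤ 8 * Real.exp (x ^ 2 / 4) := by
    have h2 := Real.add_one_le_exp (x ^ 2 / 4)
    have h3 : |x| ^ 2 = x ^ 2 := sq_abs x
    nlinarith [sq_nonneg (|x| - 1)]
  have h2 : Real.exp ((1 - x ^ 2) / 2) = Real.exp (1 / 2) * Real.exp (-(x ^ 2) / 2) := by
    rw [← Real.exp_add]; congr 1; ring
  have h3 : Real.exp (-(1 / 4) * x ^ 2) = Real.exp (x ^ 2 / 4) * Real.exp (-(x ^ 2) / 2) := by
    rw [← Real.exp_add]; congr 1; ring
  rw [h2, h3]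
  have h4 : 0 < Real.exp (1 / 2) * Real.exp (-(x ^ 2) / 2) := by positivity
  calc (1 + |x|) ^ 2 * (Real.exp (1 / 2) * Real.exp (-(x ^ 2) / 2)) ≤
      8 * Real.exp (x ^ 2 / 4) * (Real.exp (1 / 2) * Real.exp (-(x ^ 2) / 2)) := by gcongr
    _ = _ := by ring

/-- the integral over the line `-1/2`, from the bounds of the multiplier -/
theorem left_line_of
    (Mk_le : ∀ (κ : ℝ) (_ : 0 < κ) (_ : κ ≤ 1) (z : ℂ) (_ : -1 / 2 ≤ z.re) (_ : z.re ≤ 3 / 2),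
      ‖Mk κ z‖ ≤ 6 * mn κ z.im)
    (mn_shift : ∀ (κ : ℝ) (_ : 0 < κ) (v t : ℝ), mn κ v ≤ (1 + |v - t|) * mn κ t) :
    ∃ C : ℝ, 0 ≤ C ∧ ∀ κ u t U : ℝ, 0 < κ → κ ≤ 1 → 0 ≤ U →
    ‖∫ y in (-U)..U, ld (⟨-1 / 2, y⟩ : ℂ) * (hh u t (⟨-1 / 2, y⟩ : ℂ) * Mk κ (⟨-1 / 2, y⟩ : ℂ))‖ ≤
      C * (Real.exp (-u) * (Real.log (3 + |t|) * mn κ t)) := by
  obtain ⟨C1, hC1, hld⟩ := ld_left
  set G : ℝ := ∫ x : ℝ, Real.exp (-(1 / 4) * x ^ 2) with hG
  have hG0 : 0 ≤ G := integral_nonneg fun x => (Real.exp_pos _).le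
  have hint : Integrable fun x : ℝ => Real.exp (-(1 / 4) * x ^ 2) := integrable_exp_neg_mul_sq (by norm_num)
  refine ⟨C1 * 6 * (8 * Real.exp (1 / 2)) * G, by positivity, ?_⟩
  intro κ u t U hκ hκ1 hU
  have hmn : ∀ s : ℝ, 0 ≤ mn κ s := fun s => le_min hκ.le (by positivity)
  have hlog : 0 ≤ Real.log (3 + |t|) := Real.log_nonneg (by linarith [abs_nonneg t])
  set K : ℝ := C1 * 6 * (8 * Real.exp (1 / 2)) * (Real.exp (-u) * (Real.log (3 + |t|) * mn κ t)) with hK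
  have hK0 : 0 ≤ K := by
    have := hmn t
    positivity
  have hpt : ∀ y : ℝ, ‖ld (⟨-1 / 2, y⟩ : ℂ) * (hh u t (⟨-1 / 2, y⟩ : ℂ) * Mk κ (⟨-1 / 2, y⟩ : ℂ))‖ ≤
      K * Real.exp (-(1 / 4) * (y - t) ^ 2) := by
    intro y
    rw [norm_mul, norm_mul, norm_hh_left]
    have h1 := hld y
    have h2 := Mk_le κ hκ hκ1 (⟨-1 / 2, y⟩ : ℂ) (by norm_num) (by norm_num)
    simp only at h2
    have h3 := mn_shift κ hκ y t
    have h4 := log_shift y t
    have h5 := gauss_poly (y - t)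
    have h6 : ‖ld (⟨-1 / 2, y⟩ : ℂ)‖ ≤ C1 * ((1 + |y - t|) * Real.log (3 + |t|)) :=
      h1.trans (mul_le_mul_of_nonneg_left h4 hC1)
    have h7 : ‖Mk κ (⟨-1 / 2, y⟩ : ℂ)‖ ≤ 6 * ((1 + |y - t|) * mn κ t) := by linarith
    have h8 := hmn t
    have ha : 0 ≤ |y - t| := abs_nonneg _
    calc ‖ld (⟨-1 / 2, y⟩ : ℂ)‖ * (Real.exp (-u) * Real.exp ((1 - (y - t) ^ 2) / 2) * ‖Mk κ (⟨-1 / 2, y⟩ : ℂ)‖)
        ≤ (C1 * ((1 + |y - t|) * Real.log (3 + |t|))) *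
          (Real.exp (-u) * Real.exp ((1 - (y - t) ^ 2) / 2) * (6 * ((1 + |y - t|) * mn κ t))) := by
          gcongr
      _ = C1 * 6 * (Real.exp (-u) * (Real.log (3 + |t|) * mn κ t)) *
          ((1 + |y - t|) ^ 2 * Real.exp ((1 - (y - t) ^ 2) / 2)) := by ring
      _ ≤ C1 * 6 * (Real.exp (-u) * (Real.log (3 + |t|) * mn κ t)) *
          (8 * Real.exp (1 / 2) * Real.exp (-(1 / 4) * (y - t) ^ 2)) := by
          gcongr
      _ = K * Real.exp (-(1 / 4) * (y - t) ^ 2) := by rw [hK]; ring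
  have hint2 : Integrable fun y : ℝ => K * Real.exp (-(1 / 4) * (y - t) ^ 2) :=
    (hint.comp_sub_right t).const_mul K
  have h1 : ‖∫ y in (-U)..U, ld (⟨-1 / 2, y⟩ : ℂ) * (hh u t (⟨-1 / 2, y⟩ : ℂ) * Mk κ (⟨-1 / 2, y⟩ : ℂ))‖ ≤
      ∫ y in (-U)..U, K * Real.exp (-(1 / 4) * (y - t) ^ 2) := by
    apply intervalIntegral.norm_integral_le_of_norm_le (by linarith)
    · exact Eventually.of_forall fun y _ => hpt y
    · exact hint2.intervalIntegrable
  refine h1.trans ?_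
  rw [intervalIntegral.integral_of_le (by linarith)]
  refine (setIntegral_le_integral hint2 (Eventually.of_forall fun y => ?_)).trans ?_
  · simp only [Pi.zero_apply]
    positivity
  · rw [integral_const_mul, integral_sub_right_eq_self (fun y : ℝ => Real.exp (-(1 / 4) * y ^ 2)) t, hK]
    apply le_of_eq
    ring

end Pool.Agent.L5helper83.CVL

namespace Pool.Agent.L5helper12.CV

theorem left_line : ∃ C : ℝ, 0 ≤ C ∧ ∀ κ u t U : ℝ, 0 < κ → κ ≤ 1 → 0 ≤ U →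
    ‖∫ y in (-U)..U, ld (⟨-1 / 2, y⟩ : ℂ) * (hh u t (⟨-1 / 2, y⟩ : ℂ) * Mk κ (⟨-1 / 2, y⟩ : ℂ))‖ ≤
      C * (Real.exp (-u) * (Real.log (3 + |t|) * mn κ t)) :=
  Pool.Agent.L5helper83.CVL.left_line_of Mk_le mn_shift

end Pool.Agent.L5helper12.CV
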